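import Pool.Agent.Y484.LC.BottB
import Pool.Agent.Y272.LC.Stm5

set_option autoImplicit false

/-! BOTT2: inverse Boettcher coordinates of all the maps `z ^ d + c` in the half plane, holomorphic
in the parameter too (helper427, after helper484). -/

open Complex Filter Topology Metric Set

namespace Pool.Agent.Y427.LC

open Pool.Agent.H712R2 Pool.Agent.H713R2 Pool.Agent.H713R2.AR Pool.Agent.Y272.TY Pool.Agent.Y272.LC
open Pool.Agent.Y484.LC

/-- a continuous root of a differentiable function is differentiable -/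
theorem root_diff {d : ℕ} (hd : d ≠ 0) {h g : ℂ → ℂ} {c : ℂ} (hh : ContinuousAt h c)
    (h0 : h c ≠ 0) (hg : DifferentiableAt ℂ g c) (he : ∀ᶠ c' in 𝓝 c, h c' ^ d = g c') :
    DifferentiableAt ℂ h c := by
  have hs : HasStrictDerivAt (fun z : ℂ => z ^ d) ((d : ℂ) * h c ^ (d - 1)) (h c) :=
    hasStrictDerivAt_pow d (h c)
  have hne : (d : ℂ) * h c ^ (d - 1) ≠ 0 :=
    mul_ne_zero (by exact_mod_cast hd) (pow_ne_zero _ h0)
  set L := hs.localInverse (fun z : ℂ => z ^ d) ((d : ℂ) * h c ^ (d - 1)) (h c) hne with hL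
  have h1 : HasStrictDerivAt L ((d : ℂ) * h c ^ (d - 1))⁻¹ (h c ^ d) :=
    hs.to_localInverse hne
  have h2 : ∀ᶠ z in 𝓝 (h c), L (z ^ d) = z :=
    (hs.hasStrictFDerivAt_equiv hne).eventually_left_inverse
  have h3 : ∀ᶠ c' in 𝓝 c, L (h c' ^ d) = h c' := hh.eventually h2
  have hgc : h c ^ d = g c := he.self_of_nhds
  rw [hgc] at h1
  have h4 : DifferentiableAt ℂ (fun c' => L (g c')) c :=
    DifferentiableAt.comp c (g := L) (f := g) h1.hasDerivAt.differentiableAt hg
  refine h4.congr_of_eventuallyEq ?_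
  filter_upwards [he, h3] with c' h5 h6
  rw [← h5, h6]

/-- the inverse Boettcher coordinate is holomorphic in the parameter -/
theorem psi_par {d : ℕ} (hd : 2 ≤ d) {Ψ : ℂ → ℂ → ℂ} (hΨ : IsPsi d Ψ) {c x : ℂ} (hx : x ≠ 0)
    (hxr : ‖x‖ < rho d c) : DifferentiableAt ℂ (fun c' => Ψ c' x) c := by
  have hd0 : d ≠ 0 := by omega
  have hc : ‖c‖ < ‖c‖ + 1 := by linarith
  have hB : 0 < ‖c‖ + 1 := by positivity
  set B : ℝ := ‖c‖ + 1 with hBdef
  obtain ⟨ψ, hψ, hnear⟩ := hΨ.near B hB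
  have key : ∀ n : ℕ, ∀ x : ℂ, x ≠ 0 → ‖x‖ < rho d c → KK B * ‖x ^ (d ^ n)‖ < 1 →
      DifferentiableAt ℂ (fun c' => Ψ c' x) c := by
    intro n
    induction n with
    | zero =>
      intro x hx _ h1
      rw [pow_zero, pow_one] at h1
      have hopen : IsOpen (ball (0 : ℂ) B ×ˢ {w : ℂ | KK B < ‖w‖}) :=
        isOpen_ball.prod (isOpen_lt continuous_const continuous_norm)
      have h2 : DifferentiableAt ℂ ψ (c, x⁻¹) :=
        hψ.diff.differentiableAt
          (hopen.mem_nhds ⟨mem_ball_zero_iff.mpr hc, inv_big hB hx h1⟩)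
      have h3 : DifferentiableAt ℂ (fun c' : ℂ => ψ (c', x⁻¹)) c :=
        DifferentiableAt.comp c (g := ψ) (f := fun c' : ℂ => (c', x⁻¹)) h2
          (differentiableAt_id.prodMk (differentiableAt_const _))
      refine h3.congr_of_eventuallyEq ?_
      filter_upwards [isOpen_ball.mem_nhds (mem_ball_zero_iff.mpr hc)] with c' hc'
      exact (hnear c' x (mem_ball_zero_iff.mp hc') hx h1).2
    | succ n ih =>
      intro x hx hxr h1
      have h2 := ih (x ^ d) (pow_ne_zero _ hx) (pow_lt_rho hd hxr hd0) (by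
        rw [← pow_mul, ← pow_succ']
        exact h1)
      have h3 : DifferentiableAt ℂ (fun c' => Ψ c' (x ^ d) - c') c := h2.sub differentiableAt_id
      have h4 : ContinuousAt (fun c' => Ψ c' x) c :=
        ContinuousAt.comp (g := fun p : ℂ × ℂ => Ψ p.1 p.2) (f := fun c' : ℂ => (c', x))
          (hΨ.cont c x hx hxr) (continuousAt_id.prodMk continuousAt_const)
      obtain ⟨m, hm⟩ := EE_exists hd hc hx ((lt_rho_iff hx).mp hxr)
      have hop : IsOpen {c' : ℂ | (c', x) ∈ Pool.Agent.Y484.LC.EE d B m} := (isOpen_EE d B m).preimage (by fun_prop)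
      refine root_diff hd0 h4 ((hΨ.isP c).ne x hx hxr) h3 ?_
      filter_upwards [hop.mem_nhds hm] with c' hc'
      have h5 := (hΨ.isP c').conj x hx (EE_rho hd hc')
      rw [← h5]
      unfold fc
      ring
  have hx1 : ‖x‖ < 1 := lt_of_lt_of_le hxr (rho_le hd c)
  obtain ⟨n, hn⟩ := (small_pow hd hx1 (KK B)).exists
  exact key n x hx hxr hn

theorem t : St_Bott2 := by
  intro d hd
  obtain ⟨Ψ, hΨ⟩ := exists_psi hd
  have hdom : ∀ c ζ : ℂ, green d c 0 < ζ.re → ‖Complex.exp (-ζ)‖ < rho d c := by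
    intro c ζ h
    rw [Complex.norm_exp, Complex.neg_re]
    unfold Pool.Agent.Y484.LC.rho
    exact Real.exp_lt_exp.mpr (by linarith)
  have hne : ∀ ζ : ℂ, Complex.exp (-ζ) ≠ 0 := fun ζ => Complex.exp_ne_zero _
  refine ⟨fun c ζ => Ψ c (Complex.exp (-ζ)), ⟨?_, ?_, ?_, ?_, ?_, ?_, ?_, ?_⟩, ?_⟩
  · intro c ζ h
    rw [(hΨ.isP c).conj _ (hne ζ) (hdom c ζ h), ← Complex.exp_nat_mul]
    congr 2
    ring
  · intro c ζ _
    congr 1
    rw [neg_add, Complex.exp_add]
    have : Complex.exp (-(((2 * Real.pi : ℝ) : ℂ) * I)) = 1 := by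
      rw [Complex.exp_neg]
      push_cast
      rw [Complex.exp_two_pi_mul_I, inv_one]
    rw [this, mul_one]
  · intro c ζ h
    rw [green_psi hd hΨ (hne ζ) (hdom c ζ h), Complex.norm_exp, Real.log_exp, Complex.neg_re,
      neg_neg]
  · intro c ζ ζ' h h' he
    have h1 := inj_psi hd hΨ (hne ζ) (hne ζ') (hdom c ζ h) (hdom c ζ' h') he
    rw [Complex.exp_eq_exp_iff_exists_int] at h1
    obtain ⟨n, hn⟩ := h1
    refine ⟨-n, ?_⟩
    push_cast
    linear_combination -hn
  · intro c z hz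
    obtain ⟨x, hx0, hxr, hx⟩ := surj_psi hd hΨ hz
    refine ⟨-Complex.log x, ?_, ?_⟩
    · rw [Complex.neg_re, Complex.log_re, ← hx, green_psi hd hΨ hx0 hxr]
    · simp only [neg_neg]
      rw [Complex.exp_log hx0, hx]
  · intro q hq
    have hq' : green d q.1 0 < q.2.re := hq
    apply ContinuousAt.continuousWithinAt
    have h1 : ContinuousAt (fun q : ℂ × ℂ => (q.1, Complex.exp (-q.2))) q := by fun_prop
    exact ContinuousAt.comp (g := fun p : ℂ × ℂ => Ψ p.1 p.2)
      (f := fun q : ℂ × ℂ => (q.1, Complex.exp (-q.2)))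
      (hΨ.cont _ _ (hne q.2) (hdom q.1 q.2 hq')) h1
  · intro c ζ h
    have h' : green d c 0 < ζ.re := h
    apply DifferentiableAt.differentiableWithinAt
    exact DifferentiableAt.comp ζ (g := Ψ c) (f := fun ζ : ℂ => Complex.exp (-ζ))
      (hΨ.diff c _ (hne ζ) (hdom c ζ h')) (by fun_prop)
  · intro β hβ ζ hζ
    have hn1 : ‖Complex.exp (-ζ)‖ < 1 := by
      rw [Complex.norm_exp, Complex.neg_re, Real.exp_lt_one_iff]
      linarith
    refine ⟨?_, par_psi hd hΨ hβ (hne ζ) hn1⟩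
    rw [green_cc0 hd hβ (hne ζ) hn1, Complex.norm_exp, Real.log_exp, Complex.neg_re, neg_neg]
  · intro ζ c hc
    exact (psi_par hd hΨ (hne ζ) (hdom c ζ hc)).differentiableWithinAt

end Pool.Agent.Y427.LC
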